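import Pool.Agent.KS6_88.IM.Main

/-!
# MP_66278f_co: logarithmic size immersions above the threshold, for every family of multigraphs

The statement asked for cliques holds for every nonempty family of finite multigraphs: average degree
`imm(𝓕) + ε` forces an immersion of a member of `𝓕` on at most `α log n` vertices.
-/

set_option autoImplicit false

namespace Pool.Agent.Results.MP_66278f_co.EveryPattern

/-- The average degree `2|E(G)|/n`. -/
noncomputable def avgDeg {n : ℕ} (G : SimpleGraph (Fin n)) : ℝ := 2 * (G.edgeSet.ncard : ℝ) / (n : ℝ)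

/-- A finite multigraph: `order` vertices, edges indexed by the type `edges`, the edge `e` joining the
vertices `s e` and `t e`. -/
structure Multigraph where
  order : ℕ
  edges : Type
  s : edges → Fin order
  t : edges → Fin order

/-- An immersion of `F` in `G`: an injection of the vertices and, for each edge of `F`, a path of `G`
between the images of its ends, these paths being pairwise edge-disjoint. -/
structure Immersion (F : Multigraph) {n : ℕ} (G : SimpleGraph (Fin n)) where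
  f : Fin F.order → Fin n
  inj : Function.Injective f
  P : ∀ e : F.edges, G.Walk (f (F.s e)) (f (F.t e))
  path : ∀ e, (P e).IsPath
  disj : ∀ e e', e ≠ e' → (P e).edges.Disjoint (P e').edges

/-- The vertices used by an immersion. -/
def Immersion.verts {F : Multigraph} {n : ℕ} {G : SimpleGraph (Fin n)} (I : Immersion F G) :
    Set (Fin n) :=
  {v | (∃ i, I.f i = v) ∨ ∃ e, v ∈ (I.P e).support}

/-- The average degrees `d` such that every graph of average degree at least `d` immerses a member of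
the family. -/
def forcing {ι : Type} (𝓕 : ι → Multigraph) : Set ℝ :=
  {d | ∀ (m : ℕ) (H : SimpleGraph (Fin m)), d ≤ avgDeg H → ∃ i, Nonempty (Immersion (𝓕 i) H)}

/-- The immersion threshold of a family. -/
noncomputable def imm {ι : Type} (𝓕 : ι → Multigraph) : ℝ := sInf (forcing 𝓕)

/-- The clique on `k` vertices. -/
def clique (k : ℕ) : Multigraph where
  order := k
  edges := {p : Fin k × Fin k // p.1 < p.2}
  s p := p.1.1
  t p := p.1.2

theorem toImm {F : Multigraph} {n : ℕ} {G : SimpleGraph (Fin n)} (h : Nonempty (Immersion F G)) :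
    Pool.Agent.KS6_88.IM.Imm F.s F.t G := by
  obtain ⟨I⟩ := h
  exact ⟨I.f, I.inj, I.P, I.path, I.disj⟩

theorem ofImm {F : Multigraph} {n : ℕ} {G : SimpleGraph (Fin n)}
    (h : Pool.Agent.KS6_88.IM.Imm F.s F.t G) : Nonempty (Immersion F G) := by
  obtain ⟨f, hf, P, h1, h2⟩ := h
  exact ⟨⟨f, hf, P, h1, h2⟩⟩

theorem forcing_eq {ι : Type} (𝓕 : ι → Multigraph) :
    forcing 𝓕 = Pool.Agent.KS6_88.IM.thr (fun i => (𝓕 i).order) (fun i => (𝓕 i).edges)
      (fun i => (𝓕 i).s) (fun i => (𝓕 i).t) := by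
  ext d
  constructor
  · intro h m H hd
    obtain ⟨i, hi⟩ := h m H hd
    exact ⟨i, toImm hi⟩
  · intro h m H hd
    obtain ⟨i, hi⟩ := h m H hd
    exact ⟨i, ofImm hi⟩

theorem family {ι : Type} (𝓕 : ι → Multigraph) (hfin : ∃ i, Finite (𝓕 i).edges)
    (hord : ∀ i, 1 ≤ (𝓕 i).order) (ε : ℝ) (hε : 0 < ε) :
    ∃ α : ℝ, ∀ (n : ℕ) (G : SimpleGraph (Fin n)), imm 𝓕 + ε ≤ avgDeg G →
      ∃ i, ∃ I : Immersion (𝓕 i) G, (I.verts.ncard : ℝ) ≤ α * Real.log n := by
  obtain ⟨α, hα⟩ := Pool.Agent.KS6_88.IM.main (fun i => (𝓕 i).order) (fun i => (𝓕 i).edges)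
      (fun i => (𝓕 i).s) (fun i => (𝓕 i).t) hfin hord ε hε
  refine ⟨α, fun n G hG => ?_⟩
  unfold imm at hG
  rw [forcing_eq] at hG
  obtain ⟨i, B, ⟨f, hf, P, h1, h2, h3⟩, hB⟩ := hα n G hG
  refine ⟨i, ⟨f, hf, P, h1, h2⟩, le_trans ?_ hB⟩
  exact_mod_cast h3

/-- **Main theorem.** (1) For every family of multigraphs (with at least one vertex each) at least one
member of which is finite, and every `ε > 0`, there is `α` such that every graph on `n` vertices of
average degree at least `imm(𝓕) + ε` has an immersion of a member of the family using at most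
`α log n` vertices. (2) The same for every single finite multigraph `F`. (3) Q1: the same for `K_k`,
`k ≥ 1`. (4) The thresholds are finite: the set of forcing average degrees is nonempty and bounded
below. -/
theorem result :
    (∀ (ι : Type) (𝓕 : ι → Multigraph), (∃ i, Finite (𝓕 i).edges) → (∀ i, 1 ≤ (𝓕 i).order) →
      ∀ ε : ℝ, 0 < ε → ∃ α : ℝ, ∀ (n : ℕ) (G : SimpleGraph (Fin n)), imm 𝓕 + ε ≤ avgDeg G →
        ∃ i, ∃ I : Immersion (𝓕 i) G, (I.verts.ncard : ℝ) ≤ α * Real.log n) ∧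
    (∀ F : Multigraph, Finite F.edges → 1 ≤ F.order →
      ∀ ε : ℝ, 0 < ε → ∃ α : ℝ, ∀ (n : ℕ) (G : SimpleGraph (Fin n)),
        imm (fun _ : Unit => F) + ε ≤ avgDeg G →
        ∃ I : Immersion F G, (I.verts.ncard : ℝ) ≤ α * Real.log n) ∧
    (∀ k : ℕ, 1 ≤ k → ∀ ε : ℝ, 0 < ε → ∃ α : ℝ, ∀ (n : ℕ) (G : SimpleGraph (Fin n)),
        imm (fun _ : Unit => clique k) + ε ≤ avgDeg G →
        ∃ I : Immersion (clique k) G, (I.verts.ncard : ℝ) ≤ α * Real.log n) ∧
    (∀ (ι : Type) (𝓕 : ι → Multigraph), (∃ i, Finite (𝓕 i).edges) → (∀ i, 1 ≤ (𝓕 i).order) →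
      (forcing 𝓕).Nonempty ∧ ∀ d ∈ forcing 𝓕, 0 ≤ d) := by
  have h2 : ∀ F : Multigraph, Finite F.edges → 1 ≤ F.order →
      ∀ ε : ℝ, 0 < ε → ∃ α : ℝ, ∀ (n : ℕ) (G : SimpleGraph (Fin n)),
        imm (fun _ : Unit => F) + ε ≤ avgDeg G →
        ∃ I : Immersion F G, (I.verts.ncard : ℝ) ≤ α * Real.log n := by
    intro F hF hF1 ε hε
    obtain ⟨α, hα⟩ := family (fun _ : Unit => F) ⟨(), hF⟩ (fun _ => hF1) ε hε
    refine ⟨α, fun n G hG => ?_⟩
    obtain ⟨-, I, hI⟩ := hα n G hG
    exact ⟨I, hI⟩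
  refine ⟨fun ι 𝓕 h1 h3 ε hε => family 𝓕 h1 h3 ε hε, h2, ?_, ?_⟩
  · intro k hk ε hε
    exact h2 (clique k) (by unfold clique; infer_instance) hk ε hε
  · intro ι 𝓕 h1 h3
    refine ⟨?_, ?_⟩
    · obtain ⟨i, hi⟩ := h1
      obtain ⟨d, hd⟩ := Pool.Agent.KS6_88.IM.maderP (𝓕 i).s (𝓕 i).t
      exact ⟨d, fun m H hH => ⟨i, ofImm (hd m H hH)⟩⟩
    · intro d hd
      by_contra hlt
      rw [not_le] at hlt
      obtain ⟨i, ⟨I⟩⟩ := hd 0 ⊥ (by unfold avgDeg; simp; exact hlt.le)
      exact (I.f ⟨0, h3 i⟩).elim0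

end Pool.Agent.Results.MP_66278f_co.EveryPattern
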